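import Pool.Agent.Helper8.UL.Spec2

/-! Part STEP of UL2: one more triangle. -/

set_option autoImplicit false

namespace Pool.Agent.Helper49.UL2.STEP

open Pool.UL

lemma ind3_x (p q w : ℕ) : ind3 p q w p = 1 := by simp [ind3]
lemma ind3_y (p q w : ℕ) : ind3 p q w q = 1 := by simp [ind3]
lemma ind3_w (p q w : ℕ) : ind3 p q w w = 1 := by simp [ind3]

lemma ind3_pqw (p q w v : ℕ) : ind3 p q w v ≤ 1 := by
  unfold ind3
  split_ifs <;> omega

/-- arithmetic of the costs -/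
lemma cost_le {Δ S t i a c : ℕ} (hS : S ≤ 12 * Δ * Δ) (ha : a ≤ (102 * Δ + 200 * Δ ^ 2) * t)
    (hc : c ≤ 2 * Δ) :
    a + i * (100 * Δ + 10 * S) + i * c ≤ (102 * Δ + 200 * Δ ^ 2) * (t + i) := by
  have h1 : i * (100 * Δ + 10 * S) + i * c = i * (100 * Δ + 10 * S + c) := by ring
  have h2 : 100 * Δ + 10 * S + c ≤ 102 * Δ + 200 * Δ ^ 2 := by nlinarith
  have h3 := Nat.mul_le_mul_left i h2
  have h4 : (102 * Δ + 200 * Δ ^ 2) * (t + i) =
      (102 * Δ + 200 * Δ ^ 2) * t + i * (102 * Δ + 200 * Δ ^ 2) := by ring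
  rw [add_assoc, h1, h4]
  exact Nat.add_le_add ha h3

theorem main (hD : S_DUAL) (h1 : S_N1) (h2 : S_N2) (h3 : S_N3) (hB : S_BM) : S_STEP := by
  intro E Δ p q w H₁ H₂ H₃ H T₁ T₂ T₃ T σ hσ hΔ hpq hwp hwq hT hTΔ hH hq1 hp2 hw3 h12 h13 h23 hw
    i1 i1' i2 i2' i3
  have epq : p ≠ q := by rintro rfl; omega
  have epw : p ≠ w := by rintro rfl; omega
  have ewq : w ≠ q := by rintro rfl; omega
  have eww : ¬ E w w := fun h => by have := hσ _ _ h; omega
  obtain ⟨M3, B3, X3, X3', κM3, κB3, e3, d3, aM3, aB3, gM3, gB3, bX3, bX3', bκ3⟩ := i3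
  have hTp := hT p
  have hTq := hT q
  have hTw := hT w
  rw [ind3_x] at hTp
  rw [ind3_y] at hTq
  rw [ind3_w] at hTw
  have hTp' := hTΔ p
  have hTq' := hTΔ q
  have hTw' := hTΔ w
  have hmono : ∀ a b c, a ≤ 4 * Δ * b → b ≤ c → a ≤ 4 * Δ * c := fun a b c h h' =>
    h.trans (Nat.mul_le_mul_left _ h')
  rcases lt_or_gt_of_ne hwp with hlt | hgt
  · -- `w` below `p`
    have hwq' : σ w < σ q := hlt.trans hpq
    obtain ⟨M1, B1, X1, X1', κM1, κB1, e1, d1, aM1, aB1, gM1, gB1, bX1, bX1', bκ1⟩ := i1' hlt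
    obtain ⟨M2, B2, X2, X2', κM2, κB2, e2, d2, aM2, aB2, gM2, gB2, bX2, bX2', bκ2⟩ := i2 hwq'
    have g := h3 E Δ p q w M1 B1 M2 B2 X1 X1' X2 X2' κM1 κB1 κM2 κB2 hΔ epq epw ewq.symm
      aM1 aB1 aM2 aB2 (by grind) (by grind) (by grind) (by grind) (by grind) (by grind) (by grind)
      eww (fun h => by have := hσ _ _ h; omega) (fun h => by have := hσ _ _ h; omega)
      (by intro v hv; have := hw v hv; grind) gM1 gB1 gM2 gB2
    have aN : Att E {v | v ∈ M1 ∨ v ∈ B1 ∨ v ∈ M2 ∨ v ∈ B2 ∨ v = w} p q := by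
      obtain ⟨x1, x2, x3⟩ := aM1
      obtain ⟨y1, y2, y3⟩ := aB1
      obtain ⟨z1, z2, z3⟩ := aM2
      obtain ⟨t1, t2, t3⟩ := aB2
      refine ⟨?_, ?_, ?_⟩
      · rintro (h | h | h | h | h) <;> grind
      · rintro (h | h | h | h | h) <;> grind
      · rintro v (h | h | h | h | h) u hu
        · have := x3 v h u hu
          change (u ∈ M1 ∨ u ∈ B1 ∨ u ∈ M2 ∨ u ∈ B2 ∨ u = w) ∨ _
          grind
        · have := y3 v h u hu
          change (u ∈ M1 ∨ u ∈ B1 ∨ u ∈ M2 ∨ u ∈ B2 ∨ u = w) ∨ _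
          grind
        · have := z3 v h u hu
          change (u ∈ M1 ∨ u ∈ B1 ∨ u ∈ M2 ∨ u ∈ B2 ∨ u = w) ∨ _
          grind
        · have := t3 v h u hu
          change (u ∈ M1 ∨ u ∈ B1 ∨ u ∈ M2 ∨ u ∈ B2 ∨ u = w) ∨ _
          grind
        · subst h
          have := hw u hu
          change (u ∈ M1 ∨ u ∈ B1 ∨ u ∈ M2 ∨ u ∈ B2 ∨ u = v) ∨ _
          grind
    have dN : ∀ v ∈ {v | v ∈ M1 ∨ v ∈ B1 ∨ v ∈ M2 ∨ v ∈ B2 ∨ v = w}, v ∉ H₃ := by
      rintro v (h | h | h | h | h) <;> grind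
    have g' := hB E Δ p q w _ B3 _ κB3 hΔ epq aN aB3 (fun v hv hv' => dN v hv ((e3 v).2 (Or.inr hv')))
      g gB3
    refine ⟨M3, _, X3, X3', κM3, _, ?_, ?_, aM3, ?_, gM3, g', ?_, ?_, ?_⟩
    · intro v
      change _ ↔ v ∈ M3 ∨ ((v ∈ M1 ∨ v ∈ B1 ∨ v ∈ M2 ∨ v ∈ B2 ∨ v = w) ∨ v ∈ B3)
      grind
    · rintro v hv (h | h)
      · exact dN v h ((e3 v).2 (Or.inl hv))
      · exact d3 v hv h
    · obtain ⟨x1, x2, x3⟩ := aN
      obtain ⟨y1, y2, y3⟩ := aB3
      refine ⟨?_, ?_, ?_⟩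
      · rintro (h | h)
        · exact x1 h
        · exact y1 h
      · rintro (h | h)
        · exact x2 h
        · exact y2 h
      · rintro v (h | h) u hu
        · rcases x3 v h u hu with h' | h'
          · exact Or.inl (Or.inl h')
          · exact Or.inr h'
        · rcases y3 v h u hu with h' | h'
          · exact Or.inl (Or.inr h')
          · exact Or.inr h'
    · exact hmono _ _ _ bX3 (by omega)
    · exact hmono _ _ _ bX3' (by omega)
    · intro x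
      have k1 := bκ1 x
      have k2 := bκ2 x
      have k3 := bκ3 x
      have hS : X1 + X1' + X2 + X2' ≤ 12 * Δ * Δ := by
        have s1 : 4 * Δ * T₁ w + 4 * Δ * T₂ w ≤ 4 * Δ * Δ := by
          rw [← mul_add]; exact Nat.mul_le_mul_left _ (by omega)
        have s2 : 4 * Δ * T₁ p ≤ 4 * Δ * Δ := Nat.mul_le_mul_left _ (by omega)
        have s3 : 4 * Δ * T₂ q ≤ 4 * Δ * Δ := Nat.mul_le_mul_left _ (by omega)
        have s4 : 12 * Δ * Δ = 4 * Δ * Δ + 4 * Δ * Δ + 4 * Δ * Δ := by ring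
        omega
      have hx1 := hT x.1
      have hx2 := hT x.2
      have hk := cost_le (Δ := Δ) (S := X1 + X1' + X2 + X2')
        (t := (T₁ x.1 + T₁ x.2) + (T₂ x.1 + T₂ x.2) + (T₃ x.1 + T₃ x.2))
        (i := ind3 p q w x.1 + ind3 p q w x.2)
        (a := (κM1 x + κB1 x) + (κM2 x + κB2 x) + (κM3 x + κB3 x)) (c := 2 * Δ) hS (by
          rw [mul_add, mul_add]; omega) le_rfl
      have ht : (T₁ x.1 + T₁ x.2) + (T₂ x.1 + T₂ x.2) + (T₃ x.1 + T₃ x.2) +
          (ind3 p q w x.1 + ind3 p q w x.2) = T x.1 + T x.2 := by omega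
      rw [ht] at hk
      refine le_trans (le_of_eq ?_) hk
      ring
  · rcases lt_or_gt_of_ne hwq with hlt' | hgt'
    · -- `w` between `p` and `q`
      obtain ⟨M1, B1, X1, X1', κM1, κB1, e1, d1, aM1, aB1, gM1, gB1, bX1, bX1', bκ1⟩ := i1 hgt
      obtain ⟨M2, B2, X2, X2', κM2, κB2, e2, d2, aM2, aB2, gM2, gB2, bX2, bX2', bκ2⟩ := i2 hlt'
      have g := h1 E Δ p q w M3 M1 B1 M2 B2 X3 X3' X1 X1' X2 X2' κM3 κM1 κB1 κM2 κB2 hΔ epq epw ewq
        aM3 aM1 aB1 aM2 aB2 (by grind) (by grind) (by grind) (by grind) (by grind) (by grind)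
        (by grind) (by grind) (by grind)
        eww (fun h => by have := hσ _ _ h; omega) (fun h => by have := hσ _ _ h; omega)
        (by intro v hv; have := hw v hv; grind) gM3 gM1 gB1 gM2 (hD.1 _ _ _ _ _ gB2)
      refine ⟨_, B3, _, _, _, κB3, ?_, ?_, ?_, aB3, g, gB3, ?_, ?_, ?_⟩
      · intro v
        change _ ↔ (v ∈ M3 ∨ v ∈ M1 ∨ v ∈ B1 ∨ v ∈ M2 ∨ v ∈ B2 ∨ v = w) ∨ v ∈ B3
        grind
      · rintro v (h | h | h | h | h | h) <;> grind
      · obtain ⟨r1, r2, r3⟩ := aM3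
        obtain ⟨x1, x2, x3⟩ := aM1
        obtain ⟨y1, y2, y3⟩ := aB1
        obtain ⟨z1, z2, z3⟩ := aM2
        obtain ⟨t1, t2, t3⟩ := aB2
        refine ⟨?_, ?_, ?_⟩
        · rintro (h | h | h | h | h | h) <;> grind
        · rintro (h | h | h | h | h | h) <;> grind
        · rintro v (h | h | h | h | h | h) u hu
          · have := r3 v h u hu
            change (u ∈ M3 ∨ u ∈ M1 ∨ u ∈ B1 ∨ u ∈ M2 ∨ u ∈ B2 ∨ u = w) ∨ _
            grind
          · have := x3 v h u hu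
            change (u ∈ M3 ∨ u ∈ M1 ∨ u ∈ B1 ∨ u ∈ M2 ∨ u ∈ B2 ∨ u = w) ∨ _
            grind
          · have := y3 v h u hu
            change (u ∈ M3 ∨ u ∈ M1 ∨ u ∈ B1 ∨ u ∈ M2 ∨ u ∈ B2 ∨ u = w) ∨ _
            grind
          · have := z3 v h u hu
            change (u ∈ M3 ∨ u ∈ M1 ∨ u ∈ B1 ∨ u ∈ M2 ∨ u ∈ B2 ∨ u = w) ∨ _
            grind
          · have := t3 v h u hu
            change (u ∈ M3 ∨ u ∈ M1 ∨ u ∈ B1 ∨ u ∈ M2 ∨ u ∈ B2 ∨ u = w) ∨ _
            grind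
          · subst h
            have := hw u hu
            change (u ∈ M3 ∨ u ∈ M1 ∨ u ∈ B1 ∨ u ∈ M2 ∨ u ∈ B2 ∨ u = v) ∨ _
            grind
      · have s1 : 4 * Δ * T₃ p + 4 * Δ * T₁ p + 4 * Δ ≤ 4 * Δ * T p := by
          have : 4 * Δ * T₃ p + 4 * Δ * T₁ p + 4 * Δ = 4 * Δ * (T₃ p + T₁ p + 1) := by ring
          rw [this]
          exact Nat.mul_le_mul_left _ (by omega)
        omega
      · have s1 : 4 * Δ * T₃ q + 4 * Δ * T₂ q + 4 * Δ ≤ 4 * Δ * T q := by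
          have : 4 * Δ * T₃ q + 4 * Δ * T₂ q + 4 * Δ = 4 * Δ * (T₃ q + T₂ q + 1) := by ring
          rw [this]
          exact Nat.mul_le_mul_left _ (by omega)
        omega
      · intro x
        have k1 := bκ1 x
        have k2 := bκ2 x
        have k3 := bκ3 x
        have hS : X3 + X3' + X1 + X1' + X2 + X2' ≤ 12 * Δ * Δ := by
          have s1 : 4 * Δ * T₁ w + 4 * Δ * T₂ w ≤ 4 * Δ * Δ := by
            rw [← mul_add]; exact Nat.mul_le_mul_left _ (by omega)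
          have s2 : 4 * Δ * T₁ p + 4 * Δ * T₃ p ≤ 4 * Δ * Δ := by
            rw [← mul_add]; exact Nat.mul_le_mul_left _ (by omega)
          have s3 : 4 * Δ * T₂ q + 4 * Δ * T₃ q ≤ 4 * Δ * Δ := by
            rw [← mul_add]; exact Nat.mul_le_mul_left _ (by omega)
          have s4 : 12 * Δ * Δ = 4 * Δ * Δ + 4 * Δ * Δ + 4 * Δ * Δ := by ring
          omega
        have hx1 := hT x.1
        have hx2 := hT x.2
        have hk := cost_le (Δ := Δ) (S := X3 + X3' + X1 + X1' + X2 + X2')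
          (t := (T₁ x.1 + T₁ x.2) + (T₂ x.1 + T₂ x.2) + (T₃ x.1 + T₃ x.2))
          (i := ind3 p q w x.1 + ind3 p q w x.2)
          (a := (κM1 x + κB1 x) + (κM2 x + κB2 x) + (κM3 x + κB3 x)) (c := 0) hS (by
            rw [mul_add, mul_add]; omega) (Nat.zero_le _)
        have ht : (T₁ x.1 + T₁ x.2) + (T₂ x.1 + T₂ x.2) + (T₃ x.1 + T₃ x.2) +
            (ind3 p q w x.1 + ind3 p q w x.2) = T x.1 + T x.2 := by omega
        rw [ht] at hk
        refine le_trans (le_of_eq ?_) hk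
        ring
    · -- `w` above `q`
      have hwp' : σ p < σ w := hgt
      obtain ⟨M1, B1, X1, X1', κM1, κB1, e1, d1, aM1, aB1, gM1, gB1, bX1, bX1', bκ1⟩ := i1 hgt
      obtain ⟨M2, B2, X2, X2', κM2, κB2, e2, d2, aM2, aB2, gM2, gB2, bX2, bX2', bκ2⟩ := i2' hgt'
      have g := h2 E Δ p q w M1 B1 M2 B2 X1 X1' X2 X2' κM1 κB1 κM2 κB2 hΔ epq epw ewq.symm
        aM1 aB1 aM2 aB2 (by grind) (by grind) (by grind) (by grind) (by grind) (by grind) (by grind)
        eww (fun h => by have := hσ _ _ h; omega) (fun h => by have := hσ _ _ h; omega)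
        (by intro v hv; have := hw v hv; grind) gM1 gB1 gM2 gB2
      have aN : Att E {v | v ∈ M1 ∨ v ∈ B1 ∨ v ∈ M2 ∨ v ∈ B2 ∨ v = w} p q := by
        obtain ⟨x1, x2, x3⟩ := aM1
        obtain ⟨y1, y2, y3⟩ := aB1
        obtain ⟨z1, z2, z3⟩ := aM2
        obtain ⟨t1, t2, t3⟩ := aB2
        refine ⟨?_, ?_, ?_⟩
        · rintro (h | h | h | h | h) <;> grind
        · rintro (h | h | h | h | h) <;> grind
        · rintro v (h | h | h | h | h) u hu
          · have := x3 v h u hu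
            change (u ∈ M1 ∨ u ∈ B1 ∨ u ∈ M2 ∨ u ∈ B2 ∨ u = w) ∨ _
            grind
          · have := y3 v h u hu
            change (u ∈ M1 ∨ u ∈ B1 ∨ u ∈ M2 ∨ u ∈ B2 ∨ u = w) ∨ _
            grind
          · have := z3 v h u hu
            change (u ∈ M1 ∨ u ∈ B1 ∨ u ∈ M2 ∨ u ∈ B2 ∨ u = w) ∨ _
            grind
          · have := t3 v h u hu
            change (u ∈ M1 ∨ u ∈ B1 ∨ u ∈ M2 ∨ u ∈ B2 ∨ u = w) ∨ _
            grind
          · subst h
            have := hw u hu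
            change (u ∈ M1 ∨ u ∈ B1 ∨ u ∈ M2 ∨ u ∈ B2 ∨ u = v) ∨ _
            grind
      have dN : ∀ v ∈ {v | v ∈ M1 ∨ v ∈ B1 ∨ v ∈ M2 ∨ v ∈ B2 ∨ v = w}, v ∉ H₃ := by
        rintro v (h | h | h | h | h) <;> grind
      have g' := hB E Δ p q w _ B3 _ κB3 hΔ epq aN aB3
        (fun v hv hv' => dN v hv ((e3 v).2 (Or.inr hv'))) g gB3
      refine ⟨M3, _, X3, X3', κM3, _, ?_, ?_, aM3, ?_, gM3, g', ?_, ?_, ?_⟩
      · intro v
        change _ ↔ v ∈ M3 ∨ ((v ∈ M1 ∨ v ∈ B1 ∨ v ∈ M2 ∨ v ∈ B2 ∨ v = w) ∨ v ∈ B3)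
        grind
      · rintro v hv (h | h)
        · exact dN v h ((e3 v).2 (Or.inl hv))
        · exact d3 v hv h
      · obtain ⟨x1, x2, x3⟩ := aN
        obtain ⟨y1, y2, y3⟩ := aB3
        refine ⟨?_, ?_, ?_⟩
        · rintro (h | h)
          · exact x1 h
          · exact y1 h
        · rintro (h | h)
          · exact x2 h
          · exact y2 h
        · rintro v (h | h) u hu
          · rcases x3 v h u hu with h' | h'
            · exact Or.inl (Or.inl h')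
            · exact Or.inr h'
          · rcases y3 v h u hu with h' | h'
            · exact Or.inl (Or.inr h')
            · exact Or.inr h'
      · exact hmono _ _ _ bX3 (by omega)
      · exact hmono _ _ _ bX3' (by omega)
      · intro x
        have k1 := bκ1 x
        have k2 := bκ2 x
        have k3 := bκ3 x
        have hS : X1 + X1' + X2 + X2' ≤ 12 * Δ * Δ := by
          have s1 : 4 * Δ * T₁ w + 4 * Δ * T₂ w ≤ 4 * Δ * Δ := by
            rw [← mul_add]; exact Nat.mul_le_mul_left _ (by omega)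
          have s2 : 4 * Δ * T₁ p ≤ 4 * Δ * Δ := Nat.mul_le_mul_left _ (by omega)
          have s3 : 4 * Δ * T₂ q ≤ 4 * Δ * Δ := Nat.mul_le_mul_left _ (by omega)
          have s4 : 12 * Δ * Δ = 4 * Δ * Δ + 4 * Δ * Δ + 4 * Δ * Δ := by ring
          omega
        have hx1 := hT x.1
        have hx2 := hT x.2
        have hk := cost_le (Δ := Δ) (S := X1 + X1' + X2 + X2')
          (t := (T₁ x.1 + T₁ x.2) + (T₂ x.1 + T₂ x.2) + (T₃ x.1 + T₃ x.2))
          (i := ind3 p q w x.1 + ind3 p q w x.2)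
          (a := (κM1 x + κB1 x) + (κM2 x + κB2 x) + (κM3 x + κB3 x)) (c := 2 * Δ) hS (by
            rw [mul_add, mul_add]; omega) le_rfl
        have ht : (T₁ x.1 + T₁ x.2) + (T₂ x.1 + T₂ x.2) + (T₃ x.1 + T₃ x.2) +
            (ind3 p q w x.1 + ind3 p q w x.2) = T x.1 + T x.2 := by omega
        rw [ht] at hk
        refine le_trans (le_of_eq ?_) hk
        ring

end Pool.Agent.Helper49.UL2.STEP
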